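import Pool.Agent.H54.L2.Cnt
import Pool.Agent.H35.Z.LowG

/-! The lower bound for every number of vertices, in terms of `exco2`. -/

set_option autoImplicit false
open Finset

namespace Pool.Agent.H35.L2

open Pool.Agent.H35.Z

theorem codeg_same {n : ℕ} {H : Finset (Finset (Fin n))} (h4 : FourGraph H) {T : Finset (Fin n)} (hT : T.card = 3) :
    Pool.Agent.H3.Y.codeg H T = codeg H T := by
  rw [Pool.Agent.H54.L2.codeg_eq]
  have h : codeg H T = (univ.filter (fun d => insert d T ∈ H)).card :=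
    Pool.Agent.Helper27.E7.Low.codeg_eq h4 hT
  rw [h]
  refine congrArg card ?_
  ext d
  rw [mem_filter, mem_filter]
  constructor
  · rintro ⟨h1, _, h3⟩
    exact ⟨h1, h3⟩
  · rintro ⟨h1, h3⟩
    refine ⟨h1, fun hd => ?_, h3⟩
    have := h4 _ h3
    rw [insert_eq_of_mem hd, hT] at this
    omega

theorem sq_same {n : ℕ} {H : Finset (Finset (Fin n))} (h4 : FourGraph H) : Pool.Agent.H3.Y.co2 H = sq H := by
  unfold Pool.Agent.H3.Y.co2 Pool.Agent.H35.Z.sq
  exact sum_congr rfl fun T hT => by rw [codeg_same h4 (mem_powersetCard.mp hT).2]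

/-- **the lower bound for every `n`** -/
theorem low5 (n : ℕ) : 31 * (120 * n.choose 5) ≤ 384 * Pool.Agent.H3.Y.exco2 n := by
  classical
  obtain ⟨H, hH, he⟩ := exists_mem_eq_sup ((univ : Finset (Finset (Finset (Fin n)))).filter
    fun H => FourGraph H ∧ K5Free H) ⟨∅, mem_filter.mpr ⟨mem_univ _, fun e he => absurd he (notMem_empty e), by
      rintro ⟨S, hS, hsub⟩
      have hne : (S.powersetCard 4).Nonempty := powersetCard_nonempty.mpr (by omega)
      obtain ⟨T, hT⟩ := hne
      exact notMem_empty T (hsub hT)⟩⟩ (fun H => sq H)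
  have h1 : exSq n = sq H := by
    rw [← he]
    rfl
  obtain ⟨-, h4, hK⟩ := mem_filter.mp hH
  have h2 : Pool.Agent.H3.Y.co2 H ≤ Pool.Agent.H3.Y.exco2 n := by
    unfold Pool.Agent.H3.Y.exco2
    exact le_sup (f := Pool.Agent.H3.Y.co2) (mem_filter.mpr ⟨mem_univ _, h4, hK⟩)
  have h3 := lower n
  rw [h1, ← sq_same h4] at h3
  exact le_trans h3 (Nat.mul_le_mul_left _ h2)

end Pool.Agent.H35.L2
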